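import Pool.Agent.W744.BU.Stm

/-!
# BU-DOP
-/

set_option autoImplicit false

open Set Filter Topology

namespace Pool.Agent.W196.BU.DOP

open Pool.Agent.W744.BU

theorem mem {I I' : Type} (σ : I ≃ I') (x : L2 I') :
    Memℓp (fun i => x (σ i)) (2 : ENNReal) := by
  refine memℓp_gen ?_
  have h := (lp.memℓp x).summable (by norm_num : 0 < (2 : ENNReal).toReal)
  exact h.comp_injective σ.injective

/-- the permutation operator -/
noncomputable def perm {I I' : Type} (σ : I ≃ I') : L2 I' →L[ℂ] L2 I :=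
  LinearMap.mkContinuous
    { toFun := fun x => (⟨fun i => x (σ i), mem σ x⟩ : L2 I)
      map_add' := fun x y => by
        ext i
        rfl
      map_smul' := fun z x => by
        ext i
        rfl } 1 (fun x => by
      rw [one_mul, lp.norm_eq_tsum_rpow (by norm_num), lp.norm_eq_tsum_rpow (by norm_num)]
      exact le_of_eq (congrArg (· ^ (1 / (2 : ENNReal).toReal))
        (σ.tsum_eq (fun i => ‖x i‖ ^ (2 : ENNReal).toReal))))

theorem perm_apply {I I' : Type} (σ : I ≃ I') (x : L2 I') (i : I) : (perm σ x) i = x (σ i) := rfl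

theorem perm_perm {I I' : Type} (σ : I ≃ I') (x : L2 I) : perm σ (perm σ.symm x) = x := by
  ext i
  rw [perm_apply, perm_apply, σ.symm_apply_apply]

theorem perm_e {I I' : Type} (σ : I ≃ I') (q : I') : perm σ (e q) = e (σ.symm q) := by
  classical
  ext i
  rw [perm_apply]
  unfold e
  rw [lp.single_apply, lp.single_apply]
  by_cases h : σ i = q
  · have h' : i = σ.symm q := by rw [← h, σ.symm_apply_apply]
    subst h
    simp
  · have h' : i ≠ σ.symm q := fun h1 => h (by rw [h1, σ.apply_symm_apply])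
    simp [h, h']

/-- the permutation of the index set -/
def sg {G J : Type} [Group G] (d : J → G) : J × G ≃ J × G where
  toFun p := (p.1, (d p.1)⁻¹ * p.2)
  invFun p := (p.1, d p.1 * p.2)
  left_inv p := by simp
  right_inv p := by simp

/-- the operator -/
noncomputable def W {G J : Type} [Group G] (d : J → G) (a : Op J) : Op (J × G) :=
  perm (sg d) * tens a 1 * perm (sg d).symm

open Classical in
theorem entry_W (hE : S_ENT) (hT : S_TENS) {G J : Type} [Group G] (d : J → G) (a : Op J)
    (p q : J × G) : entry (W d a) p q =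
      if (d p.1)⁻¹ * p.2 = (d q.1)⁻¹ * q.2 then entry a p.1 q.1 else 0 := by
  have h1 : entry (W d a) p q = entry (tens a (1 : Op G)) (sg d p) (sg d q) := by
    show (perm (sg d) (tens a 1 (perm (sg d).symm (e q)))) p = _
    rw [perm_e, perm_apply]
    rfl
  have h2 := (hT.1 J G a 1).1 p.1 ((d p.1)⁻¹ * p.2) q.1 ((d q.1)⁻¹ * q.2)
  have h3 := hE.2.2.2.2 G ((d p.1)⁻¹ * p.2) ((d q.1)⁻¹ * q.2)
  rw [h1]
  refine h2.trans ?_
  rw [h3]
  split_ifs
  · rw [mul_one]
  · rw [mul_zero]

theorem entry_opOf {I : Type} (m : I → I → ℂ) (a : Op I) (h : ∀ i j, entry a i j = m i j)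
    (i j : I) : entry (opOf m) i j = m i j := by
  have h' : ∃ a : Op I, ∀ i j, entry a i j = m i j := ⟨a, h⟩
  unfold opOf
  rw [dif_pos h']
  exact h'.choose_spec i j

open Classical in
theorem entry_Dop (hE : S_ENT) (hT : S_TENS) {G J : Type} [Group G] (d : J → G) (a : Op J)
    (p q : J × G) : entry (Dop d a) p q =
      if (d p.1)⁻¹ * p.2 = (d q.1)⁻¹ * q.2 then entry a p.1 q.1 else 0 :=
  entry_opOf _ (W d a) (entry_W hE hT d a) p q

theorem Dop_eq (hE : S_ENT) (hT : S_TENS) {G J : Type} [Group G] (d : J → G) (a : Op J) :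
    Dop d a = W d a :=
  hE.1 _ _ _ fun i j => (entry_Dop hE hT d a i j).trans (entry_W hE hT d a i j).symm

theorem perm_mul {I : Type} (σ : I ≃ I) : (perm σ * perm σ.symm : Op I) = 1 := by
  ext1 x
  exact perm_perm σ x

theorem perm_mul' {I : Type} (σ : I ≃ I) : (perm σ.symm * perm σ : Op I) = 1 := by
  ext1 x
  exact perm_perm σ.symm x

/-- the star homomorphism -/
noncomputable def D (hE : S_ENT) (hT : S_TENS) {G J : Type} [Group G] (d : J → G) :
    Op J →⋆ₐ[ℂ] Op (J × G) where
  toFun := W d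
  map_one' := by
    unfold W
    rw [hT.2.2.2.1, mul_one, perm_mul]
  map_mul' a b := by
    unfold W
    have h := hT.2.1 J G a b 1 1
    rw [one_mul] at h
    rw [h]
    have h1 := perm_mul' (sg d)
    calc perm (sg d) * (tens a 1 * tens b 1) * perm (sg d).symm
        = perm (sg d) * tens a 1 * 1 * (tens b 1 * perm (sg d).symm) := by
          rw [mul_one]; simp only [mul_assoc]
      _ = _ := by rw [← h1]; simp only [mul_assoc]
  map_zero' := by
    unfold W
    have h := (hT.2.2.2.2.2.2.1 J G 0 0 1).1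
    rw [zero_smul, zero_smul] at h
    rw [h, mul_zero, zero_mul]
  map_add' a b := by
    unfold W
    rw [hT.2.2.2.2.1, mul_add, add_mul]
  commutes' z := by
    unfold W
    rw [Algebra.algebraMap_eq_smul_one, Algebra.algebraMap_eq_smul_one,
      (hT.2.2.2.2.2.2.1 J G z 1 1).1, hT.2.2.2.1, mul_smul_comm, mul_one, smul_mul_assoc, perm_mul]
  map_star' a := by
    classical
    refine hE.1 _ _ _ fun p q => ?_
    rw [entry_W hE hT, hE.2.1 J a, hE.2.1 (J × G) (W d a), entry_W hE hT]
    by_cases h : (d p.1)⁻¹ * p.2 = (d q.1)⁻¹ * q.2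
    · rw [if_pos h, if_pos h.symm]
    · rw [if_neg h, if_neg (fun h' => h h'.symm), star_zero]

/-- BU-DOP -/
theorem main (hE : S_ENT) (hT : S_TENS) : S_DOP := by
  intro G J _ d
  refine ⟨fun a p q => entry_Dop hE hT d a p q, D hE hT d, fun a => (Dop_eq hE hT d a).symm, ?_⟩
  intro a
  refine NonUnitalStarAlgHom.norm_map (D hE hT d) ?_ a
  intro a b hab
  refine hE.1 _ _ _ fun i j => ?_
  have h1 := entry_W hE hT d a (i, d i) (j, d j)
  have h2 := entry_W hE hT d b (i, d i) (j, d j)
  simp only [inv_mul_cancel, if_true] at h1 h2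
  rw [← h1, ← h2]
  exact congrArg (fun x => entry x (i, d i) (j, d j)) hab

end Pool.Agent.W196.BU.DOP
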